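import Mathlib
import Pool.Agent.W_MP_80df55_gt.Omega

set_option autoImplicit false

namespace Pool.Agent.Results.MP_80df55_gt.ConstVsAuto

/-- The Cech-Stone remainder of the countable discrete space: the points of the Stone-Cech
compactification of `ℕ` that are not in the image of `ℕ`, with the subspace topology. -/
abbrev OmegaStar : Type := {x : StoneCech ℕ // x ∉ Set.range (stoneCechUnit : ℕ → StoneCech ℕ)}

/-- Two points of a space lie in the same orbit if some self-homeomorphism of the space maps the
first to the second. -/
def SameOrbit {Y : Type} [TopologicalSpace Y] (a b : Y) : Prop := ∃ Φ : Y ≃ₜ Y, Φ a = b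

/-- For every point `p` of the remainder (weak P-point or not) and every autohomeomorphism `f` of
the remainder, the constant map at `p` and `f` are in different orbits of the space of continuous
self-maps with the compact-open topology. -/
theorem result (p : OmegaStar) (f : OmegaStar ≃ₜ OmegaStar) :
    ¬ SameOrbit (Y := C(OmegaStar, OmegaStar)) (ContinuousMap.const OmegaStar p)
      (⟨f, f.continuous⟩ : C(OmegaStar, OmegaStar)) := by
  rintro ⟨Φ, hΦ⟩
  refine Pool.Agent.W_MP_80df55_gt.main_OS p ⟨f, f.continuous⟩ ?_ Φ hΦ
  have : Infinite OmegaStar := Pool.Agent.W_MP_80df55_gt.infinite_OS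
  have h : Set.range ((⟨f, f.continuous⟩ : C(OmegaStar, OmegaStar)) : OmegaStar → OmegaStar) =
      Set.univ := f.surjective.range_eq
  rw [h]
  exact Set.infinite_univ

end Pool.Agent.Results.MP_80df55_gt.ConstVsAuto
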